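import Pool.Agent.Y142.ZD.Stm

/-!
# Project OI (helper282), job BADIRR: an irreducible characteristic polynomial with distinct powers
of the roots gives strong irreducibility
-/

set_option autoImplicit false

open Matrix Polynomial

namespace Pool.Agent.Q65.OI.BADIRR

open Pool.Agent.Y142.ZO Pool.Agent.Y142.ZI

theorem t (hBADD : Pool.Agent.Y142.ZD.S_BADD) : Pool.Agent.Y142.ZS.S_BADIRR := by
  intro ℓ _ N G _ _ _ _ ρ hρ σ hirr hpow U W hU hW
  obtain ⟨R, hR, hRd, q, hq⟩ := hBADD ℓ N G ρ hρ U W hU hW σ hirr.separable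
    (fun j x y hj hx hy h => hpow j hj x y hx hy h)
  have hN : (ρ σ).charpoly.natDegree = N := by
    rw [Matrix.charpoly_natDegree_eq_dim, Fintype.card_fin]
  rcases hirr.isUnit_or_isUnit hq with h | h
  · left
    have h1 : R.natDegree = 0 := natDegree_eq_zero_of_isUnit h
    rw [h1] at hRd
    exact Submodule.finrank_eq_zero.1 hRd.symm
  · right
    have h1 : q.natDegree = 0 := natDegree_eq_zero_of_isUnit h
    have h2 := natDegree_mul hR.ne_zero h.ne_zero
    rw [← hq, hN, h1, add_zero, hRd] at h2
    refine Submodule.eq_top_of_finrank_eq ?_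
    rw [← h2, Module.finrank_fin_fun]

end Pool.Agent.Q65.OI.BADIRR
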